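import Mathlib

namespace Pool.Agent.Results.MP_34afd1_lc.Q1

open List

variable {A : Type}

/-- Convolution of `k` words: pad with `none` to the maximal length, read letter by letter. -/
def conv {k : ℕ} (w : Fin k → List A) : List (Fin k → Option A) :=
  (range (Finset.univ.sup fun i => (w i).length)).map fun n i => (w i)[n]?

/-- A `k`-ary relation on words is automatic if its set of convolutions is regular. -/
def Auto {k : ℕ} (R : (Fin k → List A) → Prop) : Prop :=
  Language.IsRegular (conv '' {w | R w} : Language (Fin k → Option A))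

lemma inj {k : ℕ} {v w : Fin k → List A} (h : conv v = conv w) : v = w := by
  funext i
  have key (w : Fin k → List A) (n : ℕ) : (w i)[n]? = ((conv w)[n]?).bind fun x => x i := by
    by_cases c : n < Finset.univ.sup fun i => (w i).length
    · simp [conv, c]
    · have := Finset.le_sup (f := fun i => (w i).length) (Finset.mem_univ i)
      rw [getElem?_eq_none (this.trans (not_lt.1 c)), getElem?_eq_none (by simpa [conv] using not_lt.1 c)]
      rfl
  exact ext_getElem? fun n => by rw [key, key, h]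

lemma split (x y p q : List A) (h : max x.length y.length ≤ p.length) :
    conv ![x, y, p ++ q] = conv ![x, y, p] ++ q.map fun a => ![none, none, some a] := by
  have s (z : List A) : (Finset.univ.sup fun i => (![x, y, z] i).length) =
      max (max x.length y.length) z.length := by
    simp [Fin.univ_succ, max_assoc]
  simp only [conv, s, length_append]
  rw [max_eq_right h, max_eq_right (by omega), range_add, map_append, map_map]
  congr 1
  · refine map_congr_left fun n hn => funext fun i => ?_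
    fin_cases i <;> simp [getElem?_append_left (mem_range.1 hn)]
  · refine ext_getElem (by simp) fun n a b => funext fun i => ?_
    simp at b h
    fin_cases i <;> simp [b] <;> omega

lemma grow {e : ℕ+ → List A} (f : ℕ+ → ℕ+ → ℕ+)
    (h : Auto fun w : Fin 3 → List A => ∃ a b, w = ![e a, e b, e (f a b)]) (he : e.Injective) :
    ∃ c, ∀ a b, (e (f a b)).length ≤ max (e a).length (e b).length + c := by
  obtain ⟨σ, _, M, hM⟩ := h
  refine ⟨Fintype.card σ, fun a b => not_lt.1 fun n => ?_⟩
  set m := max (e a).length (e b).length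
  have E := take_append_drop m (e (f a b))
  have L : m ≤ (take m (e (f a b))).length := by simp; omega
  have acc : conv ![e a, e b, e (f a b)] ∈ M.accepts := hM ▸ ⟨_, ⟨a, b, rfl⟩, rfl⟩
  rw [← E, split _ _ _ _ L, DFA.mem_accepts, DFA.eval, M.evalFrom_of_append] at acc
  obtain ⟨q, u, v, w, h1, -, h2, h3, h4, h5⟩ := M.evalFrom_split (s := M.evalFrom M.start _)
    (x := (drop m (e (f a b))).map fun a => ![none, none, some a]) (by simp; omega) rfl
  obtain ⟨l, w', e1, e2, rfl⟩ := map_eq_append_iff.1 h1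
  obtain ⟨u', v', rfl, rfl, rfl⟩ := map_eq_append_iff.1 e2
  rw [← h5, ← h3, ← M.evalFrom_of_append, ← map_append, ← M.evalFrom_of_append, ← split _ _ _ _ L] at acc
  obtain ⟨_, ⟨a', b', rfl⟩, t⟩ : _ ∈ conv '' _ := hM ▸ (M.mem_accepts.2 acc)
  have t := inj t
  obtain rfl := he (congrFun t 0)
  obtain rfl := he (congrFun t 1)
  have := congrArg length ((congrFun t 2).symm.trans E.symm)
  simp [e1] at this h2
  exact h2 this

theorem result (A : Type) [Fintype A] (e : ℕ+ → List A) (he : e.Injective) :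
    ¬ (Language.IsRegular (Set.range e) ∧
      (Auto fun w : Fin 3 → List A => ∃ a b, w = ![e a, e b, e (a + b)]) ∧
      (Auto fun w : Fin 3 → List A => ∃ a b, w = ![e a, e b, e (a * 2 ^ (b : ℕ))]) ∧
      (Auto fun w : Fin 2 → List A => ∃ a b, a ≤ b ∧ w = ![e a, e b])) := by
  rintro ⟨-, h1, h2, -⟩
  obtain ⟨c, hc⟩ := grow _ h1 he
  obtain ⟨d, hd⟩ := grow (fun a b => a * 2 ^ (b : ℕ)) h2 he
  have key (n) (a : ℕ+) (h : (a : ℕ) ≤ 2 ^ 2 ^ n) : (e a).length ≤ max (e 1).length (e 2).length + n * (c + d) := by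
    induction n generalizing a with
    | zero =>
      obtain rfl | rfl : a = 1 ∨ a = 2 := by
        have := a.pos; simp only [← PNat.coe_inj]; change (a : ℕ) = 1 ∨ (a : ℕ) = 2; simp at h; omega
      all_goals simp
    | succ n ih =>
      by_cases s : (a : ℕ) ≤ 2 ^ 2 ^ n
      · have := ih a s; nlinarith
      have P : 0 < 2 ^ 2 ^ n := by positivity
      have D := Nat.div_add_mod (a - 1) (2 ^ 2 ^ n)
      have R := Nat.mod_lt (a - 1) P
      have q0 : 0 < (a - 1 : ℕ) / 2 ^ 2 ^ n := Nat.div_pos (by omega) P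
      have q1 : (a - 1 : ℕ) / 2 ^ 2 ^ n < 2 ^ 2 ^ n := by
        rw [Nat.div_lt_iff_lt_mul P, ← pow_add, ← mul_two, ← pow_succ]; omega
      have E : a = ⟨_, q0⟩ * 2 ^ ((2 ^ n : ℕ+) : ℕ) + ⟨(a - 1) % 2 ^ 2 ^ n + 1, by omega⟩ := by
        rw [← PNat.coe_inj]; simp; rw [mul_comm]; omega
      have a1 := ih ⟨_, q0⟩ q1.le
      have a2 := ih (2 ^ n) (by simpa using Nat.lt_two_pow_self.le)
      have a3 := ih ⟨(a - 1) % 2 ^ 2 ^ n + 1, by omega⟩ (by simpa using R)
      have a4 := hd ⟨_, q0⟩ (2 ^ n)
      have a5 := hc (⟨_, q0⟩ * 2 ^ ((2 ^ n : ℕ+) : ℕ)) ⟨(a - 1) % 2 ^ 2 ^ n + 1, by omega⟩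
      rw [← E] at a5
      rw [add_one_mul]
      omega
  set m := max (e 1).length (e 2).length
  have cnt (n) : 2 ^ 2 ^ n ≤ Fintype.card (Option A) ^ (m + n * (c + d)) := by
    have := Fintype.card_le_of_injective (fun a : Fin (2 ^ 2 ^ n) => fun i : Fin (m + n * (c + d)) =>
      (e (Nat.succPNat a))[(i : ℕ)]?) fun a b h => Fin.ext (Nat.succPNat_injective (he (ext_getElem? fun i => ?_)))
    · simpa using this
    by_cases k : i < m + n * (c + d)
    · exact congrFun h ⟨i, k⟩
    · rw [getElem?_eq_none ((key n (Nat.succPNat a) a.2).trans (not_lt.1 k)), getElem?_eq_none ((key n (Nat.succPNat b) b.2).trans (not_lt.1 k))]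
  set K := Fintype.card (Option A)
  have b (n) : 2 ^ n ≤ K * (m + n * (c + d)) := (Nat.pow_le_pow_iff_right one_lt_two).1
    ((cnt n).trans (by rw [pow_mul]; exact Nat.pow_le_pow_left Nat.lt_two_pow_self.le _))
  have := b (2 * (K * (m + 2 * (c + d)) + 1))
  set t := K * (m + 2 * (c + d)) + 1
  have z : t < 2 ^ t := Nat.lt_two_pow_self
  rw [two_mul t, pow_add] at this
  have : t * t ≤ K * (m + (t + t) * (c + d)) := (Nat.mul_le_mul z.le z.le).trans this
  have : K * m ≤ K * m * t := Nat.le_mul_of_pos_right _ (by omega)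
  have : t * t = t * (K * (m + 2 * (c + d)) + 1) := rfl
  have : 0 < t := Nat.succ_pos _
  nlinarith

end Pool.Agent.Results.MP_34afd1_lc.Q1
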